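import Pool.Agent.W399.WP.Stm

/-! Project WP, part CUT. -/

set_option autoImplicit false

namespace Pool.Agent.W935.WP399

open Pool.Agent.W399.WP

section
variable {M : Type} [CancelMonoid M] {A : Type} {φ : A → M}

theorem bw_append (X Y : List (Blk A)) : bw (X ++ Y) = bw Y ++ bw X := by
  simp [bw]

theorem bw_cons (B : Blk A) (X : List (Blk A)) : bw (B :: X) = bw X ++ B.1 := by
  simp [bw]

theorem Good.tail {ρ : ℕ} : ∀ {X Y : List (Blk A)}, Good φ ρ (X ++ Y) → Good φ ρ Y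
  | [], _, h => h
  | _ :: _, _, h => Good.tail h.1

variable (D : CFData φ)

theorem ND_len {Dp : ℕ} {Bs : List (Blk A)} {n : List A × D.X} (h : n ∈ ND D Dp Bs) :
    n.1.length ≤ Dp := by
  cases Bs with
  | nil =>
    have : n = ([], D.top) := h
    rw [this]
    exact Nat.zero_le _
  | cons B Bs => exact h.1

/-- chains down -/
theorem down {Dp : ℕ} (Low : List (Blk A)) : ∀ (Mid : List (Blk A)) (n' : List A × D.X),
    n' ∈ ND D Dp (Mid ++ Low) → ∃ n'' ∈ ND D Dp Low, ∃ w v : List A,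
      n''.1 ++ bw Mid = w ++ n'.1 ∧ Step D.C n''.2 w v n'.2
  | [], n', h => ⟨n', h, [], [], by simp [bw], Step.refl _⟩
  | B :: Mid, n', h => by
    obtain ⟨-, m, hm, w, v, h1, h2⟩ := h
    obtain ⟨n'', hn, w0, v0, h3, h4⟩ := down Low Mid m hm
    refine ⟨n'', hn, w0 ++ w, v0 ++ v, ?_, h4.trans h2⟩
    rw [bw_cons, ← List.append_assoc, h3, List.append_assoc, h1, List.append_assoc]

theorem NodeAt.comp {n₁ n₂ : List A × D.X} {W W' t w v : List A} (h : NodeAt D n₁ W t)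
    (h1 : n₁.1 ++ W' = w ++ n₂.1) (h2 : Step D.C n₁.2 w v n₂.2) :
    NodeAt D n₂ (W ++ W') (t ++ v) := by
  obtain ⟨a, ha, hs⟩ := h
  refine ⟨a ++ w, ?_, hs.trans h2⟩
  rw [ha, List.append_assoc, h1, List.append_assoc]

theorem NodeAt.val {n : List A × D.X} {W t U V : List A} (h : NodeAt D n W t)
    (hV : (n.1 ++ U, V) ∈ D.C n.2) : pr φ (W ++ U) = pr φ t * pr φ V := by
  obtain ⟨a, ha, hs⟩ := h
  have := (D.hC _ _).1 (hs _ _ hV)
  rw [pr_append] at this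
  rw [ha, pr_append, pr_append]
  rw [pr_append, ← mul_assoc, pr_append] at this
  exact this

/-- the finite set -/
theorem finite_mid {φ : A → M} (D : CFData φ) {F G : Set M} (hF : F.Finite) (hG : G.Finite)
    (a v c d : D.X → List A) :
    {m : M | ∃ p ∈ G, ∃ q ∈ G, ∃ m' : M, (∃ x y : D.X, ∃ f ∈ F,
      pr φ (a x) * m' * pr φ (c y) = pr φ (v x) * f * pr φ (d y)) ∧ p * m = m' * q}.Finite := by
  have := D.finX
  have h1 : {m' : M | ∃ x y : D.X, ∃ f ∈ F,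
      pr φ (a x) * m' * pr φ (c y) = pr φ (v x) * f * pr φ (d y)}.Finite := by
    have : {m' : M | ∃ x y : D.X, ∃ f ∈ F,
      pr φ (a x) * m' * pr φ (c y) = pr φ (v x) * f * pr φ (d y)} =
      ⋃ x : D.X, ⋃ y : D.X, ⋃ f ∈ F, {m' : M |
        pr φ (a x) * m' * pr φ (c y) = pr φ (v x) * f * pr φ (d y)} := by
      ext m
      simp
    rw [this]
    refine Set.finite_iUnion fun x => Set.finite_iUnion fun y => hF.biUnion fun f _ => ?_
    apply Set.Subsingleton.finite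
    intro m₁ hm₁ m₂ hm₂
    have e : pr φ (a x) * m₁ * pr φ (c y) = pr φ (a x) * m₂ * pr φ (c y) := hm₁.trans hm₂.symm
    exact mul_left_cancel (mul_right_cancel e)
  have h2 : {m : M | ∃ p ∈ G, ∃ q ∈ G, ∃ m' : M, (∃ x y : D.X, ∃ f ∈ F,
      pr φ (a x) * m' * pr φ (c y) = pr φ (v x) * f * pr φ (d y)) ∧ p * m = m' * q} =
      ⋃ p ∈ G, ⋃ q ∈ G, ⋃ m' ∈ {m' : M | ∃ x y : D.X, ∃ f ∈ F,
      pr φ (a x) * m' * pr φ (c y) = pr φ (v x) * f * pr φ (d y)}, {m : M | p * m = m' * q} := by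
    ext m
    simp only [Set.mem_iUnion, Set.mem_ofPred_eq, exists_prop]
  rw [h2]
  refine hG.biUnion fun p _ => hG.biUnion fun q _ => h1.biUnion fun m' _ => ?_
  apply Set.Subsingleton.finite
  intro m₁ hm₁ m₂ hm₂
  have e : p * m₁ = p * m₂ := hm₁.trans hm₂.symm
  exact mul_left_cancel e

end

theorem cut (h1 : S_NOD) (h2 : S_CHN) (h3 : S_LBL) (h4 : S_CNT) : S_CUT := by
  intro M _ A _ φ hs D ρ Dp hρ hKp
  obtain ⟨-, -, h33⟩ := h3 M _ A ‹_› φ hs D
  obtain ⟨H₀, hH₀⟩ := h33 Dp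
  have hctx := D.ctx
  choose a v hav using hctx
  have hne : ∀ x, ∃ c d : List A, (c, d) ∈ D.C x := by
    intro x
    obtain ⟨⟨c, d⟩, h⟩ := D.ne x
    exact ⟨c, d, h⟩
  choose c d hcd using hne
  have hB := finite_ball φ hs H₀
  have hG := finite_ball φ hs Dp
  have hF1 := finite_rdiv hB hB
  have hF3 := finite_mid D hF1 hG a v c d
  obtain ⟨N, hN⟩ := h4 M _ A ‹_› φ hs D ρ Dp hρ hKp _ hF3
  refine ⟨N + 1, ?_⟩
  intro Top Mid Low n' t t' hgood hlen hn' hnode ht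
  obtain ⟨hn'ND, V, hV⟩ := hn'
  obtain ⟨Vg, hVg1, hVg2⟩ := exists_geo φ hs (pr φ V)
  have hval := NodeAt.val D hnode hV
  have hbw : bw (Top ++ Mid ++ Low) = bw (Mid ++ Low) ++ bw Top := by
    rw [bw_append, bw_append, bw_append, List.append_assoc]
  have hv : pr φ (t ++ Vg) = pr φ (bw (Top ++ Mid ++ Low)) := by
    rw [hbw, hval, pr_append, hVg1, ht]
  obtain ⟨n₁, n₂, v₁, v₂, v₃, w, e1, hn₁, hn₂, hnode₁, e2, hst, hc⟩ :=
    h2 M _ A φ D ρ Dp hKp Top Mid Low (t ++ Vg) hgood hv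
  have hcompl : (n₁.1 ++ (bw Mid ++ bw Top), v₂ ++ v₃) ∈ D.C n₁.2 := by
    have := hst _ _ hc
    rwa [← List.append_assoc, ← e2, List.append_assoc] at this
  have hVN : n₁ ∈ VN D Dp (Top ++ Mid) Low := ⟨hn₁, v₂ ++ v₃, by rw [bw_append]; exact hcompl⟩
  rw [List.append_assoc, List.append_eq_append_iff] at e1
  rcases e1 with ⟨h, e3, e4⟩ | ⟨c', e3, -⟩
  · exfalso
    -- `v₁ = t ++ h`, `Vg = h ++ (v₂ ++ v₃)`
    have hgeo : Geo φ Vg := by
      unfold Geo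
      rw [hVg1]
      exact hVg2
    have hgeo5 : Geo φ (h ++ v₂) :=
      Geo.factor φ (s := []) (t := h ++ v₂) (u := v₃) hgeo (by rw [e4]; simp)
    have hnode₂ : NodeAt D n₂ (bw (Mid ++ Low) ++ []) (v₁ ++ v₂) := by
      rw [List.append_nil, bw_append]
      exact NodeAt.comp D hnode₁ e2 hst
    have hlab1 : Lab D n' [] n₂ (pr φ (h ++ v₂)) := by
      refine ⟨bw Top, V, v₃, ?_, hc, ?_⟩
      · rw [List.append_nil]; exact hV
      · rw [← hVg1, e4, ← List.append_assoc, pr_append]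
    have hb5 := hH₀ n' n₂ (bw (Mid ++ Low)) [] t' (v₁ ++ v₂) _ (ND_len D hn'ND) (ND_len D hn₂)
      (Nat.zero_le _) hnode hnode₂ hlab1
    have hhlen : h.length ≤ H₀ := by
      have e5 : (h ++ v₂).length = nrm φ (pr φ (h ++ v₂)) := hgeo5
      rw [List.length_append] at e5
      omega
    obtain ⟨n'', hn'', w'', v'', e6, hst''⟩ := down D Low Mid n' hn'ND
    obtain ⟨t'', hnode''⟩ := h1 M _ A φ D Dp Low n'' hn''
    have hlab2 : Lab D n'' [] n₁ (pr φ v'' * pr φ h) := by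
      refine ⟨bw Mid ++ bw Top, v'' ++ V, v₂ ++ v₃, ?_, hcompl, ?_⟩
      · have := hst'' _ _ hV
        rwa [← List.append_assoc, ← e6, List.append_assoc, ← List.append_nil n''.1] at this
      · rw [pr_append, ← hVg1, e4, pr_append, mul_assoc]
    have hb2 := hH₀ n'' n₁ (bw Low) [] t'' v₁ _ (ND_len D hn'') (ND_len D hn₁)
      (Nat.zero_le _) hnode'' (by rw [List.append_nil]; exact hnode₁) hlab2
    have hmem1 : pr φ v'' ∈ {m : M | ∃ g ∈ {m : M | nrm φ m ≤ H₀}, m * g ∈ {m : M | nrm φ m ≤ H₀}} :=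
      ⟨pr φ h, (nrm_le φ h).trans hhlen, hb2⟩
    have hrel : pr φ (a n''.2) * pr φ w'' * pr φ (c n'.2) =
        pr φ (v n''.2) * pr φ v'' * pr φ (d n'.2) := by
      have := (D.hC _ _).1 (hav n''.2 _ _ (hst'' _ _ (hcd n'.2)))
      rw [pr_append, pr_append, pr_append, pr_append] at this
      rw [mul_assoc, mul_assoc]
      exact this
    have hmid : pr φ (bw Mid) ∈ {m : M | ∃ p ∈ {m : M | nrm φ m ≤ Dp}, ∃ q ∈ {m : M | nrm φ m ≤ Dp},
        ∃ m' : M, (∃ x y : D.X,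
          ∃ f ∈ {m : M | ∃ g ∈ {m : M | nrm φ m ≤ H₀}, m * g ∈ {m : M | nrm φ m ≤ H₀}},
      pr φ (a x) * m' * pr φ (c y) = pr φ (v x) * f * pr φ (d y)) ∧ p * m = m' * q} := by
      refine ⟨pr φ n''.1, (nrm_le φ _).trans (ND_len D hn''), pr φ n'.1,
        (nrm_le φ _).trans (ND_len D hn'ND), pr φ w'', ⟨n''.2, n'.2, pr φ v'', hmem1, hrel⟩, ?_⟩
      rw [← pr_append, ← pr_append, e6]
    have hgood' : Good φ ρ (Mid ++ Low) := by
      rw [List.append_assoc] at hgood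
      exact Good.tail hgood
    have := hN Mid Low hgood' hmid
    omega
  · exact ⟨n₁, v₁, c', e3, hVN, hnode₁⟩

end Pool.Agent.W935.WP399
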